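import Pool.Agent.Helper19.TGX.Goals

/-!
# Project TGX, packet CRP
-/

set_option autoImplicit false

open Polynomial

namespace Pool.Agent.Helper52.TGX.CRP

open Pool.Agent.Helper19.TGX

theorem t (hPFW : PFW) (hPDEG : PDEG) (hBPF : BPF) : Pool.Agent.Helper19.TGX.CRP := by
  intro k _ _ _ W' hW A B C E β hAB hB hE hβ h
  have hbw : hf W' A B = 0 → wr A B = 0 := ((hBPF k W' hW).2.2.2.2.2.2 A B hAB).2
  by_cases hC : C = 0
  · refine ⟨0, ?_, fun h0 => absurd rfl h0⟩
    have h1 : E ^ 2 * hf W' A B = 0 := by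
      rw [h, hC]
      ring
    have h2 : hf W' A B = 0 := (mul_eq_zero.mp h1).resolve_left (pow_ne_zero 2 hE)
    rw [hbw h2, zero_mul, zero_mul]
  · obtain ⟨N, hN⟩ := hPFW k W' hW A B C E β hAB hB hE hβ h
    refine ⟨N, hN, fun hN0 => ?_⟩
    have hBC : B ^ 2 * C ≠ 0 := mul_ne_zero (pow_ne_zero 2 hB) hC
    have hw : wr A B ≠ 0 := by
      intro hw
      rw [hw, zero_mul] at hN
      exact mul_ne_zero hN0 hBC hN.symm
    have hh : hf W' A B ≠ 0 := fun h0 => hw (hbw h0)
    have hβ0 : β ≠ 0 := hβ.ne_zero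
    have d1 := congrArg natDegree hN
    rw [natDegree_mul hw hE, natDegree_mul hN0 hBC, natDegree_mul (pow_ne_zero 2 hB) hC,
      natDegree_pow] at d1
    have d2 := congrArg natDegree h
    rw [natDegree_mul (pow_ne_zero 2 hE) hh,
      natDegree_mul (mul_ne_zero (pow_ne_zero 2 hC) hβ0) (pow_ne_zero 3 hB),
      natDegree_mul (pow_ne_zero 2 hC) hβ0, natDegree_pow, natDegree_pow, natDegree_pow] at d2
    have d3 := hPDEG k W' hW A B hB hw
    omega

end Pool.Agent.Helper52.TGX.CRP
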